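import Mathlib

/-! # Sequences whose sums have small variance are negatively correlated -/

set_option autoImplicit false

open Finset Filter Topology

namespace Pool.Agent.R846.NC

/-- the sum `∑_{n ≤ N} x n x (n + k)` -/
def AA (x : ℕ → ℝ) (k N : ℕ) : ℝ := ∑ n ∈ Icc 1 N, x n * x (n + k)

lemma sum_refl (A : ℕ → ℝ) (m : ℕ) : ∑ i ∈ range m, A (m - i) = ∑ k ∈ Ico 1 (m + 1), A k := by
  rw [Finset.sum_Ico_eq_sum_range]
  have h := Finset.sum_range_reflect (fun i => A (1 + i)) m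
  simp only [Nat.add_sub_cancel] at *
  rw [← h]
  refine Finset.sum_congr rfl fun i hi => ?_
  rw [mem_range] at hi
  congr 1
  omega

lemma double_sum (A : ℕ → ℝ) (m : ℕ) :
    ∑ i ∈ range m, ∑ j ∈ range m, A (Nat.dist i j) =
      m * A 0 + 2 * ∑ k ∈ Ico 1 m, ((m : ℝ) - k) * A k := by
  induction m with
  | zero => simp
  | succ m ih =>
    have h1 : ∑ i ∈ range (m + 1), ∑ j ∈ range (m + 1), A (Nat.dist i j) =
        (∑ i ∈ range m, ∑ j ∈ range m, A (Nat.dist i j)) + 2 * (∑ k ∈ Ico 1 (m + 1), A k) +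
          A 0 := by
      rw [Finset.sum_range_succ]
      simp_rw [Finset.sum_range_succ]
      rw [Finset.sum_add_distrib, Nat.dist_self]
      have e1 : ∑ i ∈ range m, A (Nat.dist i m) = ∑ k ∈ Ico 1 (m + 1), A k := by
        rw [← sum_refl]
        refine Finset.sum_congr rfl fun i hi => ?_
        rw [mem_range] at hi
        rw [Nat.dist_eq_sub_of_le hi.le]
      have e2 : ∑ i ∈ range m, A (Nat.dist m i) = ∑ k ∈ Ico 1 (m + 1), A k := by
        rw [← e1]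
        refine Finset.sum_congr rfl fun i _ => ?_
        rw [Nat.dist_comm]
      rw [e1, e2]
      ring
    have h2 : ∑ k ∈ Ico 1 (m + 1), (((m + 1 : ℕ) : ℝ) - k) * A k =
        ∑ k ∈ Ico 1 m, ((m : ℝ) - k) * A k + ∑ k ∈ Ico 1 (m + 1), A k := by
      have e1 : ∑ k ∈ Ico 1 (m + 1), (((m + 1 : ℕ) : ℝ) - k) * A k =
          ∑ k ∈ Ico 1 (m + 1), ((m : ℝ) - k) * A k + ∑ k ∈ Ico 1 (m + 1), A k := by
        rw [← Finset.sum_add_distrib]
        refine Finset.sum_congr rfl fun k _ => ?_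
        push_cast
        ring
      rw [e1]
      congr 1
      rcases Nat.eq_zero_or_pos m with h | h
      · subst h; simp
      rw [Finset.sum_Ico_succ_top h]
      simp
    rw [h1, h2, ih]
    push_cast
    ring

lemma tele (g : ℕ → ℝ) (N i : ℕ) :
    ∑ n ∈ Icc 1 N, g (n + i + 1) = ∑ n ∈ Icc 1 N, g (n + i) + (g (N + i + 1) - g (i + 1)) := by
  induction N with
  | zero => simp
  | succ N ih =>
    rw [Finset.sum_Icc_succ_top (by omega), Finset.sum_Icc_succ_top (by omega), ih]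
    have e : N + 1 + i = N + i + 1 := by ring
    rw [e]
    ring

lemma shift_bound (g : ℕ → ℝ) (N i : ℕ) (B : ℝ) (hB : ∀ n, 1 ≤ n → n ≤ N + i → |g n| ≤ B) :
    |∑ n ∈ Icc 1 N, g (n + i) - ∑ n ∈ Icc 1 N, g n| ≤ 2 * i * B := by
  induction i with
  | zero => simp
  | succ i ih =>
    have h1 := ih fun n h1 h2 => hB n h1 (by omega)
    have h2 := tele g N i
    have h3 := hB (N + i + 1) (by omega) (by omega)
    have h4 := hB (i + 1) (by omega) (by omega)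
    have e : ∑ n ∈ Icc 1 N, g (n + (i + 1)) = ∑ n ∈ Icc 1 N, g (n + i + 1) := rfl
    rw [e, h2]
    rw [abs_le] at *
    push_cast
    constructor <;> linarith [h1.1, h1.2, h3.1, h3.2, h4.1, h4.2]

lemma pair_bound (x : ℕ → ℝ) (N m i j : ℕ) (M : ℝ) (hi : i < m) (hj : j < m)
    (hM : ∀ n, 1 ≤ n → n ≤ N + 2 * m → |x n| ≤ M) :
    |∑ n ∈ Icc 1 N, x (n + i) * x (n + j) - AA x (Nat.dist i j) N| ≤ 2 * m * M ^ 2 := by
  have hM0 : 0 ≤ M := (abs_nonneg _).trans (hM 1 le_rfl (by omega))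
  have hm0 : (0 : ℝ) ≤ m := Nat.cast_nonneg m
  have key : ∀ i j : ℕ, i ≤ j → j < m →
      |∑ n ∈ Icc 1 N, x (n + i) * x (n + j) - AA x (j - i) N| ≤ 2 * m * M ^ 2 := by
    intro i j hij hj
    have h := shift_bound (fun n => x n * x (n + (j - i))) N i (M ^ 2) (by
      intro n h1 h2
      rw [abs_mul, sq]
      exact mul_le_mul (hM _ h1 (by omega)) (hM _ (by omega) (by omega)) (abs_nonneg _) hM0)
    have e : ∑ n ∈ Icc 1 N, x (n + i) * x (n + i + (j - i)) =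
        ∑ n ∈ Icc 1 N, x (n + i) * x (n + j) := by
      refine Finset.sum_congr rfl fun n _ => ?_
      congr 2
      omega
    rw [e] at h
    refine h.trans ?_
    have : (i : ℝ) ≤ m := by exact_mod_cast (hij.trans hj.le)
    have : 0 ≤ M ^ 2 := sq_nonneg _
    gcongr
  rcases le_total i j with h | h
  · rw [Nat.dist_eq_sub_of_le h]
    exact key i j h hj
  · rw [Nat.dist_comm, Nat.dist_eq_sub_of_le h]
    have h1 := key j i h hi
    have e : ∑ n ∈ Icc 1 N, x (n + i) * x (n + j) = ∑ n ∈ Icc 1 N, x (n + j) * x (n + i) :=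
      Finset.sum_congr rfl fun n _ => mul_comm _ _
    rw [e]
    exact h1

/-- the expansion of the variance of the sums of `m` consecutive terms -/
lemma expand (x : ℕ → ℝ) (N m : ℕ) (M : ℝ) (hM : ∀ n, 1 ≤ n → n ≤ N + 2 * m → |x n| ≤ M) :
    |∑ n ∈ Icc 1 N, (∑ i ∈ range m, x (n + i)) ^ 2 -
      (m * AA x 0 N + 2 * ∑ k ∈ Ico 1 m, ((m : ℝ) - k) * AA x k N)| ≤ 2 * m ^ 3 * M ^ 2 := by
  rw [← double_sum (fun k => AA x k N) m]
  have e : ∑ n ∈ Icc 1 N, (∑ i ∈ range m, x (n + i)) ^ 2 =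
      ∑ i ∈ range m, ∑ j ∈ range m, ∑ n ∈ Icc 1 N, x (n + i) * x (n + j) := by
    have e1 : ∀ n, (∑ i ∈ range m, x (n + i)) ^ 2 =
        ∑ i ∈ range m, ∑ j ∈ range m, x (n + i) * x (n + j) := by
      intro n
      rw [sq, Finset.sum_mul_sum]
    simp_rw [e1]
    rw [Finset.sum_comm]
    refine Finset.sum_congr rfl fun i _ => ?_
    rw [Finset.sum_comm]
  rw [e, ← Finset.sum_sub_distrib]
  simp_rw [← Finset.sum_sub_distrib]
  refine (Finset.abs_sum_le_sum_abs _ _).trans ?_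
  have h : ∀ i ∈ range m, |∑ j ∈ range m, (∑ n ∈ Icc 1 N, x (n + i) * x (n + j) -
      AA x (Nat.dist i j) N)| ≤ m * (2 * m * M ^ 2) := by
    intro i hi
    refine (Finset.abs_sum_le_sum_abs _ _).trans ?_
    refine (Finset.sum_le_sum fun j hj => pair_bound x N m i j M (mem_range.mp hi)
      (mem_range.mp hj) hM).trans ?_
    rw [Finset.sum_const, card_range, nsmul_eq_mul]
  refine (Finset.sum_le_sum h).trans ?_
  rw [Finset.sum_const, card_range, nsmul_eq_mul]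
  apply le_of_eq
  ring

/-- the autocovariance at lag `k` -/
noncomputable def cov (x : ℕ → ℝ) (k N : ℕ) : ℝ := (1 / N : ℝ) * ∑ n ∈ Icc 1 N, x n * x (n + k)

/-- logarithmic growth -/
def LogGrowth (x : ℕ → ℝ) : Prop := ∃ C : ℝ, 0 < C ∧ ∀ n : ℕ, 1 ≤ n → |x n| ≤ C * (1 + Real.log n)

/-- the sums of `m` consecutive terms have mean square at most `V (1 + log m)²` -/
def SmallVar (x : ℕ → ℝ) (V : ℝ) : Prop := ∀ m : ℕ, 1 ≤ m → ∀ᶠ N : ℕ in atTop,
  ∑ n ∈ Icc 1 N, (∑ i ∈ range m, x (n + i)) ^ 2 ≤ V * (1 + Real.log m) ^ 2 * N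

lemma log_sq_small (C : ℝ) (m : ℕ) (ε : ℝ) (hε : 0 < ε) : ∀ᶠ N : ℕ in atTop,
    (C * (1 + Real.log ((N + 2 * m : ℕ) : ℝ))) ^ 2 ≤ ε * N := by
  have h1 : Tendsto (fun x : ℝ => (1 + Real.log x) ^ 2 / x) atTop (𝓝 0) := by
    have h2 : Tendsto (fun x : ℝ => 1 / x) atTop (𝓝 0) := by
      simpa using tendsto_inv_atTop_zero
    have h3 : Tendsto (fun x : ℝ => Real.log x ^ 1 / x) atTop (𝓝 0) := by
      have := Real.tendsto_pow_log_div_mul_add_atTop 1 0 1 one_ne_zero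
      simpa using this
    have h4 : Tendsto (fun x : ℝ => Real.log x ^ 2 / x) atTop (𝓝 0) := by
      have := Real.tendsto_pow_log_div_mul_add_atTop 1 0 2 one_ne_zero
      simpa using this
    have h5 := (h2.add (h3.const_mul 2)).add h4
    simp only [mul_zero, add_zero] at h5
    refine h5.congr fun x => ?_
    ring
  have h2 : Tendsto (fun N : ℕ => ((N + 2 * m : ℕ) : ℝ)) atTop atTop :=
    tendsto_natCast_atTop_atTop.comp (tendsto_add_atTop_nat (2 * m))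
  have h3 := (h1.comp h2).const_mul (C ^ 2)
  rw [mul_zero] at h3
  have h4 : ∀ᶠ N : ℕ in atTop, C ^ 2 * ((1 + Real.log ((N + 2 * m : ℕ) : ℝ)) ^ 2 /
      ((N + 2 * m : ℕ) : ℝ)) < ε / 2 := h3.eventually_lt_const (by positivity)
  filter_upwards [h4, eventually_ge_atTop (2 * m + 1)] with N h5 h6
  have h7 : (0 : ℝ) < ((N + 2 * m : ℕ) : ℝ) := by
    have : 0 < N + 2 * m := by omega
    exact_mod_cast this
  have h8 : ((N + 2 * m : ℕ) : ℝ) ≤ 2 * N := by
    have : N + 2 * m ≤ 2 * N := by omega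
    exact_mod_cast this
  rw [mul_div_assoc', div_lt_iff₀ h7] at h5
  calc (C * (1 + Real.log ((N + 2 * m : ℕ) : ℝ))) ^ 2 =
      C ^ 2 * (1 + Real.log ((N + 2 * m : ℕ) : ℝ)) ^ 2 := by ring
    _ ≤ ε / 2 * ((N + 2 * m : ℕ) : ℝ) := h5.le
    _ ≤ ε / 2 * (2 * N) := mul_le_mul_of_nonneg_left h8 (by positivity)
    _ = ε * N := by ring

lemma growth_bound {x : ℕ → ℝ} {C : ℝ} (hC : 0 < C) (h : ∀ n : ℕ, 1 ≤ n → |x n| ≤ C * (1 + Real.log n))
    (N m : ℕ) : ∀ n, 1 ≤ n → n ≤ N + 2 * m → |x n| ≤ C * (1 + Real.log ((N + 2 * m : ℕ) : ℝ)) := by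
  intro n h1 h2
  refine (h n h1).trans ?_
  have h3 : Real.log n ≤ Real.log ((N + 2 * m : ℕ) : ℝ) :=
    Real.log_le_log (by exact_mod_cast h1) (by exact_mod_cast h2)
  gcongr

/-- **the sum rule**, unnormalised -/
theorem sum_rule {x : ℕ → ℝ} (hg : LogGrowth x) (m : ℕ) (ε : ℝ) (hε : 0 < ε) :
    ∀ᶠ N : ℕ in atTop, |(1 / N : ℝ) * ∑ n ∈ Icc 1 N, (∑ i ∈ range m, x (n + i)) ^ 2 -
      (m * cov x 0 N + 2 * ∑ k ∈ Ico 1 m, ((m : ℝ) - k) * cov x k N)| ≤ ε := by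
  obtain ⟨C, hC, h⟩ := hg
  filter_upwards [log_sq_small C m (ε / (2 * m ^ 3 + 1)) (by positivity),
    eventually_gt_atTop 0] with N h1 h2
  have hN : (0 : ℝ) < N := by exact_mod_cast h2
  have h3 := expand x N m _ (growth_bound hC h N m)
  have e : (1 / N : ℝ) * ∑ n ∈ Icc 1 N, (∑ i ∈ range m, x (n + i)) ^ 2 -
      (m * cov x 0 N + 2 * ∑ k ∈ Ico 1 m, ((m : ℝ) - k) * cov x k N) =
      (1 / N : ℝ) * (∑ n ∈ Icc 1 N, (∑ i ∈ range m, x (n + i)) ^ 2 -
      (m * AA x 0 N + 2 * ∑ k ∈ Ico 1 m, ((m : ℝ) - k) * AA x k N)) := by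
    have e1 : ∀ k, cov x k N = (1 / N : ℝ) * AA x k N := fun k => rfl
    simp_rw [e1]
    have e2 : ∑ k ∈ Ico 1 m, ((m : ℝ) - k) * (1 / N * AA x k N) =
        (1 / N : ℝ) * ∑ k ∈ Ico 1 m, ((m : ℝ) - k) * AA x k N := by
      rw [Finset.mul_sum]
      exact Finset.sum_congr rfl fun k _ => by ring
    rw [e2]
    ring
  rw [e, abs_mul, abs_of_nonneg (by positivity : (0 : ℝ) ≤ 1 / N), one_div, inv_mul_le_iff₀ hN]
  refine h3.trans ?_
  calc 2 * (m : ℝ) ^ 3 * (C * (1 + Real.log ((N + 2 * m : ℕ) : ℝ))) ^ 2 ≤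
      2 * (m : ℝ) ^ 3 * (ε / (2 * m ^ 3 + 1) * N) := mul_le_mul_of_nonneg_left h1 (by positivity)
    _ = (2 * (m : ℝ) ^ 3 / (2 * m ^ 3 + 1)) * (ε * N) := by ring
    _ ≤ 1 * (ε * N) := by
        apply mul_le_mul_of_nonneg_right _ (by positivity)
        rw [div_le_one (by positivity)]
        linarith
    _ = N * ε := by ring

end Pool.Agent.R846.NC
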