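import Pool.Agent.R846.NC.Abs

/-! # Negative correlation: the abstract theorems -/

set_option autoImplicit false

open Finset Filter Topology

namespace Pool.Agent.R846.NC

lemma cov_norm (x : ℕ → ℝ) (m N : ℕ) (hm : 1 ≤ m) :
    m * cov x 0 N + 2 * ∑ k ∈ Ico 1 m, ((m : ℝ) - k) * cov x k N =
      m * (cov x 0 N + 2 * ∑ k ∈ Ico 1 m, (1 - (k : ℝ) / m) * cov x k N) := by
  have hm0 : (m : ℝ) ≠ 0 := by
    have : m ≠ 0 := by omega
    exact_mod_cast this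
  have e : (m : ℝ) * ∑ k ∈ Ico 1 m, (1 - (k : ℝ) / m) * cov x k N =
      ∑ k ∈ Ico 1 m, ((m : ℝ) - k) * cov x k N := by
    rw [Finset.mul_sum]
    refine Finset.sum_congr rfl fun k _ => ?_
    field_simp
  rw [mul_add, ← mul_assoc, mul_comm (m : ℝ) 2, mul_assoc, e]

/-- **the sum rule** -/
theorem rule {x : ℕ → ℝ} {V : ℝ} (hg : LogGrowth x) (hv : SmallVar x V) (m : ℕ) (hm : 1 ≤ m) :
    ∀ᶠ N : ℕ in atTop, |cov x 0 N + 2 * ∑ k ∈ Ico 1 m, (1 - (k : ℝ) / m) * cov x k N| ≤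
      (V + 1) * (1 + Real.log m) ^ 2 / m := by
  filter_upwards [sum_rule hg m 1 one_pos, hv m hm, eventually_gt_atTop 0] with N h1 h2 h3
  have hN : (0 : ℝ) < N := by exact_mod_cast h3
  have hm0 : (0 : ℝ) < m := by exact_mod_cast hm
  have hl : 0 ≤ Real.log m := Real.log_natCast_nonneg m
  have h4 : 0 ≤ (1 / N : ℝ) * ∑ n ∈ Icc 1 N, (∑ i ∈ range m, x (n + i)) ^ 2 := by
    apply mul_nonneg (by positivity)
    exact Finset.sum_nonneg fun _ _ => sq_nonneg _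
  have h5 : (1 / N : ℝ) * ∑ n ∈ Icc 1 N, (∑ i ∈ range m, x (n + i)) ^ 2 ≤
      V * (1 + Real.log m) ^ 2 := by
    rw [one_div, inv_mul_le_iff₀ hN]
    linarith
  rw [cov_norm x m N hm] at h1
  rw [le_div_iff₀ hm0]
  have e : |cov x 0 N + 2 * ∑ k ∈ Ico 1 m, (1 - (k : ℝ) / m) * cov x k N| * m =
      |m * (cov x 0 N + 2 * ∑ k ∈ Ico 1 m, (1 - (k : ℝ) / m) * cov x k N)| := by
    rw [abs_mul, abs_of_pos hm0, mul_comm]
  rw [e]
  have h6 : (1 : ℝ) ≤ (1 + Real.log m) ^ 2 := one_le_pow₀ (by linarith)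
  rw [abs_le] at *
  constructor <;> linarith [h1.1, h1.2]

lemma log_sq_div (V c : ℝ) (hc : 0 < c) : ∃ m0 : ℕ, 2 ≤ m0 ∧ ∀ m : ℕ, m0 ≤ m →
    (V + 1) * (1 + Real.log m) ^ 2 / m ≤ c := by
  have h1 : Tendsto (fun x : ℝ => (1 + Real.log x) ^ 2 / x) atTop (𝓝 0) := by
    have h2 : Tendsto (fun x : ℝ => 1 / x) atTop (𝓝 0) := by
      simpa using tendsto_inv_atTop_zero
    have h3 : Tendsto (fun x : ℝ => Real.log x ^ 1 / x) atTop (𝓝 0) := by
      have := Real.tendsto_pow_log_div_mul_add_atTop 1 0 1 one_ne_zero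
      simpa using this
    have h4 : Tendsto (fun x : ℝ => Real.log x ^ 2 / x) atTop (𝓝 0) := by
      have := Real.tendsto_pow_log_div_mul_add_atTop 1 0 2 one_ne_zero
      simpa using this
    have h5 := (h2.add (h3.const_mul 2)).add h4
    simp only [mul_zero, add_zero] at h5
    refine h5.congr fun x => ?_
    ring
  have h2 := (h1.comp tendsto_natCast_atTop_atTop).const_mul (V + 1)
  rw [mul_zero] at h2
  obtain ⟨m0, h3⟩ := (h2.eventually_lt_const hc).exists_forall_of_atTop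
  refine ⟨max m0 2, le_max_right _ _, fun m hm => ?_⟩
  have h4 := h3 m ((le_max_left _ _).trans hm)
  rw [mul_div_assoc]
  exact h4.le

/-- **the total covariance is negative** -/
theorem total_neg {x : ℕ → ℝ} {V c0 : ℝ} (hg : LogGrowth x) (hv : SmallVar x V)
    (hc0 : ∀ᶠ N : ℕ in atTop, c0 * N ≤ ∑ n ∈ Icc 1 N, x n ^ 2) (c : ℝ) (hc : c < c0 / 2) :
    ∃ m0 : ℕ, 2 ≤ m0 ∧ ∀ m : ℕ, m0 ≤ m → ∀ᶠ N : ℕ in atTop,
      ∑ k ∈ Ico 1 m, (1 - (k : ℝ) / m) * cov x k N ≤ -c := by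
  obtain ⟨m0, h2, hm0⟩ := log_sq_div V (c0 - 2 * c) (by linarith)
  refine ⟨m0, h2, fun m hm => ?_⟩
  filter_upwards [rule hg hv m (by omega), hc0, eventually_gt_atTop 0] with N h3 h4 h5
  have hN : (0 : ℝ) < N := by exact_mod_cast h5
  have h6 : c0 ≤ cov x 0 N := by
    unfold cov
    rw [one_div, inv_mul_eq_div, le_div_iff₀ hN]
    refine h4.trans (le_of_eq ?_)
    exact Finset.sum_congr rfl fun n _ => by rw [add_zero]; ring
  have h7 := (abs_le.mp (h3.trans (hm0 m hm))).2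
  linarith

/-- **negative correlation at a bounded lag** -/
theorem exists_neg {x : ℕ → ℝ} {V c0 : ℝ} (hg : LogGrowth x) (hv : SmallVar x V)
    (hc0 : ∀ᶠ N : ℕ in atTop, c0 * N ≤ ∑ n ∈ Icc 1 N, x n ^ 2) (hpos : 0 < c0) :
    ∃ (K : ℕ) (c : ℝ), 0 < c ∧ ∀ᶠ N : ℕ in atTop, ∃ k : ℕ, 1 ≤ k ∧ k ≤ K ∧ cov x k N ≤ -c := by
  obtain ⟨m, hm2, hm⟩ := total_neg hg hv hc0 (c0 / 4) (by linarith)
  have hm0 : (0 : ℝ) < m := by
    have : 0 < m := by omega
    exact_mod_cast this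
  refine ⟨m, c0 / 4 / m, by positivity, ?_⟩
  filter_upwards [hm m le_rfl] with N h1
  by_contra hcon
  push Not at hcon
  have h2 : ∀ k ∈ Ico 1 m, -(c0 / 4 / m) < (1 - (k : ℝ) / m) * cov x k N := by
    intro k hk
    rw [Finset.mem_Ico] at hk
    have h3 := hcon k hk.1 hk.2.le
    have hk0 : (0 : ℝ) < k := by exact_mod_cast hk.1
    have hkm : (k : ℝ) < m := by exact_mod_cast hk.2
    have h4 : 0 < 1 - (k : ℝ) / m := by
      rw [sub_pos, div_lt_one hm0]; exact hkm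
    have h5 : 1 - (k : ℝ) / m < 1 := by
      have : 0 < (k : ℝ) / m := by positivity
      linarith
    have h6 : (1 - (k : ℝ) / m) * (-(c0 / 4 / m)) < (1 - (k : ℝ) / m) * cov x k N :=
      mul_lt_mul_of_pos_left h3 h4
    have h7 : 0 < c0 / 4 / m := by positivity
    nlinarith
  have h3 : ∑ _k ∈ Ico 1 m, -(c0 / 4 / m) < ∑ k ∈ Ico 1 m, (1 - (k : ℝ) / m) * cov x k N :=
    Finset.sum_lt_sum_of_nonempty ⟨1, Finset.mem_Ico.mpr ⟨le_rfl, by omega⟩⟩ h2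
  rw [Finset.sum_const, Nat.card_Ico, nsmul_eq_mul] at h3
  have h4 : ((m - 1 : ℕ) : ℝ) ≤ m := by exact_mod_cast Nat.sub_le m 1
  have h5 : ((m - 1 : ℕ) : ℝ) * (c0 / 4 / m) ≤ m * (c0 / 4 / m) :=
    mul_le_mul_of_nonneg_right h4 (by positivity)
  have h6 : (m : ℝ) * (c0 / 4 / m) = c0 / 4 := by field_simp
  linarith

/-- the mean value is zero -/
theorem mean_zero {x : ℕ → ℝ} {V : ℝ} (hg : LogGrowth x) (hv : SmallVar x V) (ε : ℝ) (hε : 0 < ε) :
    ∀ᶠ N : ℕ in atTop, |∑ n ∈ Icc 1 N, x n| ≤ ε * N := by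
  obtain ⟨C, hC, h⟩ := hg
  obtain ⟨m0, hm2, hm0⟩ := log_sq_div V (ε ^ 2 / 8) (by positivity)
  set m := m0 + 1 with hm
  have hmpos : (0 : ℝ) < m := by rw [hm]; positivity
  have hm1 : (1 : ℝ) ≤ m := by rw [hm]; push_cast; linarith [(Nat.cast_nonneg m0 : (0 : ℝ) ≤ m0)]
  filter_upwards [log_sq_small C m ((ε / (4 * m)) ^ 2) (by positivity), hv m (by omega),
    eventually_gt_atTop 0] with N h1 h2 h3
  have hN : (0 : ℝ) < N := by exact_mod_cast h3
  have hN1 : (1 : ℝ) ≤ N := by exact_mod_cast h3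
  set M := C * (1 + Real.log ((N + 2 * m : ℕ) : ℝ)) with hM
  have hM0 : 0 ≤ M := by
    rw [hM]
    have := Real.log_natCast_nonneg (N + 2 * m)
    positivity
  have hMN : M ≤ ε / (4 * m) * N := by
    have h4 : M ^ 2 ≤ (ε / (4 * m) * N) ^ 2 := by
      refine h1.trans ?_
      rw [mul_pow]
      apply mul_le_mul_of_nonneg_left _ (by positivity)
      nlinarith
    exact le_of_sq_le_sq h4 (by positivity)
  -- the sums of the shifted sequences
  have h4 : ∀ i ∈ range m, |∑ n ∈ Icc 1 N, x (n + i) - ∑ n ∈ Icc 1 N, x n| ≤ 2 * m * M := by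
    intro i hi
    rw [mem_range] at hi
    have h5 := shift_bound x N i M fun n h1 h2 => growth_bound hC h N m n h1 (by omega)
    refine h5.trans ?_
    have : (i : ℝ) ≤ m := by exact_mod_cast hi.le
    gcongr
  have h5 : |∑ i ∈ range m, (∑ n ∈ Icc 1 N, x (n + i) - ∑ n ∈ Icc 1 N, x n)| ≤
      m * (2 * m * M) := by
    refine (Finset.abs_sum_le_sum_abs _ _).trans ((Finset.sum_le_sum h4).trans ?_)
    rw [Finset.sum_const, card_range, nsmul_eq_mul]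
  rw [Finset.sum_sub_distrib, Finset.sum_const, card_range, nsmul_eq_mul, Finset.sum_comm] at h5
  -- Cauchy–Schwarz
  have h6 : (∑ n ∈ Icc 1 N, ∑ i ∈ range m, x (n + i)) ^ 2 ≤
      N * ∑ n ∈ Icc 1 N, (∑ i ∈ range m, x (n + i)) ^ 2 := by
    have := sq_sum_le_card_mul_sum_sq (s := Icc 1 N) (f := fun n => ∑ i ∈ range m, x (n + i))
    rw [Nat.card_Icc, Nat.add_sub_cancel] at this
    exact this
  have hV0 : 0 ≤ V * (1 + Real.log m) ^ 2 := by
    have h7 : 0 ≤ ∑ n ∈ Icc 1 N, (∑ i ∈ range m, x (n + i)) ^ 2 :=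
      Finset.sum_nonneg fun _ _ => sq_nonneg _
    by_contra hcon
    push Not at hcon
    nlinarith
  have h8 : V * (1 + Real.log m) ^ 2 ≤ ε ^ 2 / 8 * m := by
    have h9 := hm0 m (by omega)
    rw [div_le_iff₀ hmpos] at h9
    have : 0 ≤ (1 + Real.log m) ^ 2 := sq_nonneg _
    linarith
  have h9 : |∑ n ∈ Icc 1 N, ∑ i ∈ range m, x (n + i)| ≤ ε / 2 * m * N := by
    apply abs_le_of_sq_le_sq _ (by positivity)
    refine h6.trans ?_
    have h10 : (N : ℝ) * ∑ n ∈ Icc 1 N, (∑ i ∈ range m, x (n + i)) ^ 2 ≤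
        N * (V * (1 + Real.log m) ^ 2 * N) := mul_le_mul_of_nonneg_left h2 hN.le
    refine h10.trans ?_
    have h11 : (N : ℝ) * (V * (1 + Real.log m) ^ 2 * N) ≤ N * (ε ^ 2 / 8 * m * N) := by
      apply mul_le_mul_of_nonneg_left _ hN.le
      exact mul_le_mul_of_nonneg_right h8 hN.le
    refine h11.trans ?_
    have h12 : (m : ℝ) ≤ m ^ 2 := by nlinarith
    have : 0 ≤ ε ^ 2 * (N : ℝ) ^ 2 := by positivity
    nlinarith
  have h10 : (m : ℝ) * |∑ n ∈ Icc 1 N, x n| ≤ m * (2 * m * M) + ε / 2 * m * N := by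
    rw [← abs_of_pos hmpos, ← abs_mul, abs_of_pos hmpos]
    rw [abs_le] at *
    constructor <;> linarith [h5.1, h5.2, h9.1, h9.2]
  have h11 : (m : ℝ) * (2 * m * M) ≤ ε / 2 * m * N := by
    calc (m : ℝ) * (2 * m * M) ≤ m * (2 * m * (ε / (4 * m) * N)) := by gcongr
      _ = ε / 2 * m * N := by field_simp; ring
  have h12 : (m : ℝ) * |∑ n ∈ Icc 1 N, x n| ≤ m * (ε * N) := by linarith
  exact le_of_mul_le_mul_left h12 hmpos

end Pool.Agent.R846.NC
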