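import Pool.Agent.R846.NC.Abs2

/-! # Negative correlation of the truncated sequence -/

set_option autoImplicit false

open Finset Filter Topology

namespace Pool.Agent.R846.NC

lemma trunc_le (u R : ℝ) (hR : 0 < R) : u - min u R ≤ u ^ 2 / R := by
  rw [le_div_iff₀ hR]
  rcases le_total u R with h | h
  · rw [min_eq_left h]; nlinarith [sq_nonneg u]
  · rw [min_eq_right h]; nlinarith

lemma min_mul_le {a b R : ℝ} (hR : 0 < R) (ha : 0 ≤ a) (hb : 0 ≤ b) :
    min a R * min b R ≤ a * b :=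
  mul_le_mul (min_le_left _ _) (min_le_left _ _) (le_min hb hR.le) ha

lemma sum_head (D : ℕ → ℝ) (n0 : ℕ) (h : ∀ n, n0 ≤ n → D n ≤ 0) (N : ℕ) :
    ∑ n ∈ Icc 1 N, D n ≤ ∑ n ∈ range n0, |D n| := by
  have h1 : ∑ n ∈ Icc 1 N, D n ≤ ∑ n ∈ Icc 1 N, (if n < n0 then |D n| else 0) := by
    refine Finset.sum_le_sum fun n _ => ?_
    split_ifs with hn
    · exact le_abs_self _
    · exact h n (not_lt.mp hn)
  refine h1.trans ?_
  rw [← Finset.sum_filter]
  apply Finset.sum_le_sum_of_subset_of_nonneg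
  · intro n hn
    rw [Finset.mem_filter] at hn
    exact mem_range.mpr hn.2
  · intro n _ _
    exact abs_nonneg _

/-- **the truncated sequence is negatively correlated at a bounded lag** -/
theorem trunc {u : ℕ → ℝ} {V c0 : ℝ} (hg : LogGrowth (fun n => u n - 1))
    (hv : SmallVar (fun n => u n - 1) V)
    (hc0 : ∀ᶠ N : ℕ in atTop, c0 * N ≤ ∑ n ∈ Icc 1 N, (u n - 1) ^ 2) (hpos : 0 < c0)
    (hnn : ∃ n0 : ℕ, ∀ n, n0 ≤ n → 0 ≤ u n) :
    ∃ (R : ℝ) (K : ℕ) (c : ℝ), 0 < R ∧ 0 < c ∧ ∀ᶠ N : ℕ in atTop, ∃ k : ℕ, 1 ≤ k ∧ k ≤ K ∧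
      (1 / N : ℝ) * ∑ n ∈ Icc 1 N, min (u n) R * min (u (n + k)) R ≤
        ((1 / N : ℝ) * ∑ n ∈ Icc 1 N, min (u n) R) ^ 2 - c := by
  obtain ⟨m, hm2, hm⟩ := total_neg hg hv hc0 (c0 / 4) (by linarith)
  obtain ⟨n0, hn0⟩ := hnn
  have hm0 : (0 : ℝ) < m := by
    have : 0 < m := by omega
    exact_mod_cast this
  have hV0 : 0 ≤ V := by
    obtain ⟨N, h1, h2⟩ := ((hv 1 le_rfl).and (eventually_gt_atTop 0)).exists
    have hN : (0 : ℝ) < N := by exact_mod_cast h2
    have h3 : 0 ≤ ∑ n ∈ Icc 1 N, (∑ i ∈ range 1, (u (n + i) - 1)) ^ 2 :=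
      Finset.sum_nonneg fun _ _ => sq_nonneg _
    have h4 := h3.trans h1
    simp only [Nat.cast_one, Real.log_one, add_zero, one_pow, mul_one] at h4
    exact nonneg_of_mul_nonneg_left h4 hN
  set ε := c0 / (64 * m) with hεdef
  have hε : 0 < ε := by rw [hεdef]; positivity
  set R := (2 * V + 2) / ε with hRdef
  have hR : 0 < R := by rw [hRdef]; positivity
  refine ⟨R, m, 4 * ε, hR, by positivity, ?_⟩
  obtain ⟨C, hC, hgb⟩ := hg
  -- the constants of the head
  set E : ℝ := ∑ k ∈ range m, ∑ n ∈ range n0, |min (u n) R * min (u (n + k)) R - u n * u (n + k)|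
    with hE
  have hEk : ∀ k, k < m → ∀ N : ℕ, ∑ n ∈ Icc 1 N, min (u n) R * min (u (n + k)) R ≤
      ∑ n ∈ Icc 1 N, u n * u (n + k) + E := by
    intro k hk N
    have h1 := sum_head (fun n => min (u n) R * min (u (n + k)) R - u n * u (n + k)) n0
      (fun n hn => sub_nonpos.mpr (min_mul_le hR (hn0 n hn) (hn0 (n + k) (by omega)))) N
    rw [Finset.sum_sub_distrib] at h1
    have h2 : ∑ n ∈ range n0, |min (u n) R * min (u (n + k)) R - u n * u (n + k)| ≤ E := by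
      rw [hE]
      exact Finset.single_le_sum
        (f := fun k => ∑ n ∈ range n0, |min (u n) R * min (u (n + k)) R - u n * u (n + k)|)
        (fun _ _ => Finset.sum_nonneg fun _ _ => abs_nonneg _) (mem_range.mpr hk)
    linarith
  have hEN : ∀ᶠ N : ℕ in atTop, E ≤ ε * N := by
    have : Tendsto (fun N : ℕ => ε * (N : ℝ)) atTop atTop :=
      tendsto_natCast_atTop_atTop.const_mul_atTop hε
    exact this.eventually_ge_atTop E
  filter_upwards [hm m le_rfl, hEN, mean_zero ⟨C, hC, hgb⟩ hv ε hε, hv 1 le_rfl,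
    log_sq_small C m ((ε / (4 * m)) ^ 2) (by positivity), eventually_gt_atTop 0]
    with N h1 h2 h3 h4 h5 h6
  have hN : (0 : ℝ) < N := by exact_mod_cast h6
  have hN1 : (1 : ℝ) ≤ N := by exact_mod_cast h6
  -- the mean of the truncated sequence
  have hsq : ∑ n ∈ Icc 1 N, (u n) ^ 2 ≤ (2 * V + 2) * N := by
    have e1 : ∑ n ∈ Icc 1 N, (u n) ^ 2 ≤ ∑ n ∈ Icc 1 N, (2 * (u n - 1) ^ 2 + 2) :=
      Finset.sum_le_sum fun n _ => by nlinarith [sq_nonneg (u n - 2)]
    rw [Finset.sum_add_distrib, ← Finset.mul_sum, Finset.sum_const, Nat.card_Icc,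
      Nat.add_sub_cancel, nsmul_eq_mul] at e1
    simp only [Finset.range_one, Finset.sum_singleton, add_zero, Nat.cast_one, Real.log_one,
      one_pow, mul_one] at h4
    linarith
  have hsumu : ∑ n ∈ Icc 1 N, (u n - 1) = ∑ n ∈ Icc 1 N, u n - N := by
    rw [Finset.sum_sub_distrib, Finset.sum_const, Nat.card_Icc, Nat.add_sub_cancel, nsmul_eq_mul,
      mul_one]
  have hmu : 1 - 2 * ε ≤ (1 / N : ℝ) * ∑ n ∈ Icc 1 N, min (u n) R := by
    have e1 : ∑ n ∈ Icc 1 N, (u n - min (u n) R) ≤ ∑ n ∈ Icc 1 N, (u n) ^ 2 / R :=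
      Finset.sum_le_sum fun n _ => trunc_le _ _ hR
    rw [Finset.sum_sub_distrib, ← Finset.sum_div] at e1
    have e2 : (∑ n ∈ Icc 1 N, (u n) ^ 2) / R ≤ ε * N := by
      rw [div_le_iff₀ hR, hRdef]
      have : ε * N * ((2 * V + 2) / ε) = (2 * V + 2) * N := by field_simp
      rw [this]
      exact hsq
    rw [one_div, inv_mul_eq_div, le_div_iff₀ hN]
    have e3 := (abs_le.mp h3).1
    rw [hsumu] at e3
    linarith
  -- the shifted mean
  set M := C * (1 + Real.log ((N + 2 * m : ℕ) : ℝ)) with hM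
  have hM0 : 0 ≤ M := by
    rw [hM]
    have := Real.log_natCast_nonneg (N + 2 * m)
    positivity
  have hMN : M ≤ ε / (4 * m) * N := by
    have h7 : M ^ 2 ≤ (ε / (4 * m) * N) ^ 2 := by
      refine h5.trans ?_
      rw [mul_pow]
      apply mul_le_mul_of_nonneg_left _ (by positivity)
      nlinarith
    exact le_of_sq_le_sq h7 (by positivity)
  have hshift : ∀ k, k < m → |∑ n ∈ Icc 1 N, (u (n + k) - 1) - ∑ n ∈ Icc 1 N, (u n - 1)| ≤ ε * N := by
    intro k hk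
    have h7 := shift_bound (fun n => u n - 1) N k M fun n h1 h2 =>
      growth_bound hC hgb N m n h1 (by omega)
    refine h7.trans ?_
    have hkm : (k : ℝ) ≤ m := by exact_mod_cast hk.le
    calc 2 * (k : ℝ) * M ≤ 2 * m * (ε / (4 * m) * N) := by gcongr
      _ = ε / 2 * N := by field_simp; ring
      _ ≤ ε * N := by nlinarith
  -- the correlation
  have hcorr : ∀ k, k < m → (1 / N : ℝ) * ∑ n ∈ Icc 1 N, min (u n) R * min (u (n + k)) R ≤
      cov (fun n => u n - 1) k N + 1 + 4 * ε := by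
    intro k hk
    have e1 := hEk k hk N
    have e2 : ∑ n ∈ Icc 1 N, u n * u (n + k) = ∑ n ∈ Icc 1 N, (u n - 1) * (u (n + k) - 1) +
        ∑ n ∈ Icc 1 N, (u n - 1) + ∑ n ∈ Icc 1 N, (u (n + k) - 1) + N := by
      have : ∀ n, u n * u (n + k) = (u n - 1) * (u (n + k) - 1) + (u n - 1) + (u (n + k) - 1) + 1 :=
        fun n => by ring
      simp_rw [this]
      rw [Finset.sum_add_distrib, Finset.sum_add_distrib, Finset.sum_add_distrib,
        Finset.sum_const, Nat.card_Icc, Nat.add_sub_cancel, nsmul_eq_mul, mul_one]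
    have e3 : ∑ n ∈ Icc 1 N, (u n - 1) * (u (n + k) - 1) =
        cov (fun n => u n - 1) k N * N := by
      unfold cov
      rw [one_div]
      field_simp
    have e4 := (abs_le.mp (hshift k hk)).2
    have e5 := (abs_le.mp h3).2
    rw [one_div, inv_mul_eq_div, div_le_iff₀ hN]
    linarith
  by_contra hcon
  push Not at hcon
  have hmusq : 1 - 4 * ε ≤ ((1 / N : ℝ) * ∑ n ∈ Icc 1 N, min (u n) R) ^ 2 := by
    nlinarith [sq_nonneg ((1 / N : ℝ) * ∑ n ∈ Icc 1 N, min (u n) R - 1)]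
  have h7 : ∀ k ∈ Ico 1 m, -(12 * ε) < (1 - (k : ℝ) / m) * cov (fun n => u n - 1) k N := by
    intro k hk
    rw [Finset.mem_Ico] at hk
    have h8 := hcon k hk.1 hk.2.le
    have h9 := hcorr k hk.2
    have hk0 : (0 : ℝ) < k := by exact_mod_cast hk.1
    have hkm : (k : ℝ) < m := by exact_mod_cast hk.2
    have h10 : 0 < 1 - (k : ℝ) / m := by
      rw [sub_pos, div_lt_one hm0]; exact hkm
    have h11 : 1 - (k : ℝ) / m < 1 := by
      have : 0 < (k : ℝ) / m := by positivity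
      linarith
    have h12 : -(12 * ε) < cov (fun n => u n - 1) k N := by linarith
    have h13 : (1 - (k : ℝ) / m) * (-(12 * ε)) <
        (1 - (k : ℝ) / m) * cov (fun n => u n - 1) k N := mul_lt_mul_of_pos_left h12 h10
    nlinarith
  have h8 : ∑ _k ∈ Ico 1 m, -(12 * ε) <
      ∑ k ∈ Ico 1 m, (1 - (k : ℝ) / m) * cov (fun n => u n - 1) k N :=
    Finset.sum_lt_sum_of_nonempty ⟨1, Finset.mem_Ico.mpr ⟨le_rfl, by omega⟩⟩ h7
  rw [Finset.sum_const, Nat.card_Ico, nsmul_eq_mul] at h8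
  have h9 : ((m - 1 : ℕ) : ℝ) ≤ m := by exact_mod_cast Nat.sub_le m 1
  have h10 : ((m - 1 : ℕ) : ℝ) * (12 * ε) ≤ m * (12 * ε) :=
    mul_le_mul_of_nonneg_right h9 (by positivity)
  have h11 : (m : ℝ) * (12 * ε) = 12 * c0 / 64 := by
    rw [hεdef]; field_simp
  linarith

end Pool.Agent.R846.NC
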