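import Pool.Agent.R846.NC.Abs2

/-! # Long memory -/

set_option autoImplicit false

open Finset Filter Topology

namespace Pool.Agent.R846.NC

/-- the weight `min (k (1 - 1/m), m (1 - k/m²))` -/
noncomputable def wt (m k : ℕ) : ℝ := min ((k : ℝ) * (1 - 1 / m)) (m * (1 - (k : ℝ) / (m : ℝ) ^ 2))

lemma wt_small {m k : ℕ} (hm : 1 ≤ m) (hk : k < m) : wt m k = k * (1 - 1 / m) := by
  unfold wt
  have hm0 : (0 : ℝ) < m := by exact_mod_cast hm
  have hk' : (k : ℝ) ≤ m := by exact_mod_cast hk.le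
  apply min_eq_left
  have e : (m : ℝ) * (1 - (k : ℝ) / (m : ℝ) ^ 2) = m - k / m := by field_simp
  rw [e]
  have e2 : (k : ℝ) * (1 - 1 / m) = k - k / m := by ring
  rw [e2]
  linarith

lemma wt_big {m k : ℕ} (hm : 1 ≤ m) (hk : m ≤ k) : wt m k = m - (k : ℝ) / m := by
  unfold wt
  have hm0 : (0 : ℝ) < m := by exact_mod_cast hm
  have hk' : (m : ℝ) ≤ k := by exact_mod_cast hk
  have e : (m : ℝ) * (1 - (k : ℝ) / (m : ℝ) ^ 2) = m - k / m := by field_simp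
  rw [e]
  apply min_eq_right
  have e2 : (k : ℝ) * (1 - 1 / m) = k - k / m := by ring
  rw [e2]
  linarith

lemma wt_nonneg {m k : ℕ} (hm : 1 ≤ m) (hk : k < m ^ 2) : 0 ≤ wt m k := by
  have hm0 : (0 : ℝ) < m := by exact_mod_cast hm
  have hm1 : (1 : ℝ) ≤ m := by exact_mod_cast hm
  have hk' : (k : ℝ) ≤ (m : ℝ) ^ 2 := by exact_mod_cast hk.le
  unfold wt
  apply le_min
  · apply mul_nonneg (Nat.cast_nonneg k)
    rw [sub_nonneg, div_le_one hm0]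
    exact hm1
  · apply mul_nonneg hm0.le
    rw [sub_nonneg, div_le_one (by positivity)]
    exact hk'

lemma wt_le {m k : ℕ} (hm : 1 ≤ m) : wt m k ≤ min (k : ℝ) m := by
  have hm0 : (0 : ℝ) < m := by exact_mod_cast hm
  unfold wt
  apply le_min
  · refine (min_le_left _ _).trans ?_
    have : (0 : ℝ) ≤ k := Nat.cast_nonneg k
    have h2 : 1 - 1 / (m : ℝ) ≤ 1 := by
      have : 0 < 1 / (m : ℝ) := by positivity
      linarith
    nlinarith
  · refine (min_le_right _ _).trans ?_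
    have h2 : 1 - (k : ℝ) / (m : ℝ) ^ 2 ≤ 1 := by
      have : 0 ≤ (k : ℝ) / (m : ℝ) ^ 2 := by positivity
      linarith
    nlinarith

lemma weight_id (c : ℕ → ℝ) (c0 : ℝ) {m : ℕ} (hm : 1 ≤ m) :
    ∑ k ∈ Ico 1 (m ^ 2), wt m k * (-c k) =
      (m / 2 : ℝ) * ((c0 + 2 * ∑ k ∈ Ico 1 m, (1 - (k : ℝ) / m) * c k) -
        (c0 + 2 * ∑ k ∈ Ico 1 (m ^ 2), (1 - (k : ℝ) / ((m ^ 2 : ℕ) : ℝ)) * c k)) := by
  have hm0 : (0 : ℝ) < m := by exact_mod_cast hm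
  have h1 : ∑ k ∈ Ico 1 m, (1 - (k : ℝ) / m) * c k =
      ∑ k ∈ Ico 1 (m ^ 2), (if k < m then (1 - (k : ℝ) / m) * c k else 0) := by
    rw [← Finset.sum_filter]
    apply Finset.sum_congr _ fun _ _ => rfl
    ext k
    rw [Finset.mem_filter, Finset.mem_Ico, Finset.mem_Ico]
    constructor
    · rintro ⟨a, b⟩
      refine ⟨⟨a, ?_⟩, b⟩
      calc k < m := b
        _ ≤ m ^ 2 := Nat.le_self_pow (by norm_num) m
    · rintro ⟨⟨a, _⟩, b⟩
      exact ⟨a, b⟩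
  rw [h1]
  have e : ∀ a b : ℝ, (m / 2 : ℝ) * ((c0 + 2 * a) - (c0 + 2 * b)) = m * (a - b) := by
    intro a b; ring
  rw [e, ← Finset.sum_sub_distrib, Finset.mul_sum]
  refine Finset.sum_congr rfl fun k hk => ?_
  push_cast
  split_ifs with h
  · rw [wt_small hm h]
    field_simp
    ring
  · rw [wt_big hm (not_lt.mp h)]
    field_simp
    ring

lemma log_sq_div_two (V : ℝ) : ∃ m0 : ℕ, 2 ≤ m0 ∧ ∀ m : ℕ, m0 ≤ m →
    (m : ℝ) * ((V + 1) * (1 + Real.log ((m ^ 2 : ℕ) : ℝ)) ^ 2 / ((m ^ 2 : ℕ) : ℝ)) ≤ 1 := by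
  have h1 : Tendsto (fun x : ℝ => (1 + 2 * Real.log x) ^ 2 / x) atTop (𝓝 0) := by
    have h2 : Tendsto (fun x : ℝ => 1 / x) atTop (𝓝 0) := by
      simpa using tendsto_inv_atTop_zero
    have h3 : Tendsto (fun x : ℝ => Real.log x ^ 1 / x) atTop (𝓝 0) := by
      have := Real.tendsto_pow_log_div_mul_add_atTop 1 0 1 one_ne_zero
      simpa using this
    have h4 : Tendsto (fun x : ℝ => Real.log x ^ 2 / x) atTop (𝓝 0) := by
      have := Real.tendsto_pow_log_div_mul_add_atTop 1 0 2 one_ne_zero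
      simpa using this
    have h5 := (h2.add (h3.const_mul 4)).add (h4.const_mul 4)
    simp only [mul_zero, add_zero] at h5
    refine h5.congr fun x => ?_
    ring
  have h2 := (h1.comp tendsto_natCast_atTop_atTop).const_mul (V + 1)
  rw [mul_zero] at h2
  obtain ⟨m0, h3⟩ := (h2.eventually_lt_const one_pos).exists_forall_of_atTop
  refine ⟨max m0 2, le_max_right _ _, fun m hm => ?_⟩
  have h4 := h3 m ((le_max_left _ _).trans hm)
  have hm2 : 2 ≤ m := (le_max_right _ _).trans hm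
  have hm0 : (0 : ℝ) < m := by
    have : 0 < m := by omega
    exact_mod_cast this
  refine le_trans (le_of_eq ?_) h4.le
  rw [Function.comp_apply]
  push_cast
  rw [Real.log_pow]
  push_cast
  field_simp

/-- **long memory** -/
theorem long_memory {x : ℕ → ℝ} {V c1 : ℝ} (hg : LogGrowth x) (hv : SmallVar x V) (hc1 : 0 < c1)
    (hlow : ∃ m1 : ℕ, ∀ m : ℕ, m1 ≤ m → ∀ᶠ N : ℕ in atTop,
      c1 * Real.log m * N ≤ ∑ n ∈ Icc 1 N, (∑ i ∈ range m, x (n + i)) ^ 2) :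
    ∃ m2 : ℕ, 2 ≤ m2 ∧ ∀ m : ℕ, m2 ≤ m → ∀ᶠ N : ℕ in atTop,
      c1 / 4 * Real.log m ≤ ∑ k ∈ Ico 1 (m ^ 2), wt m k * (-cov x k N) := by
  obtain ⟨m1, hm1⟩ := hlow
  obtain ⟨m0, hm02, hm0⟩ := log_sq_div_two V
  have hlim : Tendsto (fun m : ℕ => Real.log (m : ℝ)) atTop atTop :=
    Real.tendsto_log_atTop.comp tendsto_natCast_atTop_atTop
  obtain ⟨m3, hm3⟩ := (hlim.eventually_ge_atTop (8 / c1)).exists_forall_of_atTop
  refine ⟨max (max m1 m0) m3, hm02.trans ((le_max_right _ _).trans (le_max_left _ _)),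
    fun m hm => ?_⟩
  have ha : m1 ≤ m := ((le_max_left _ _).trans (le_max_left _ _)).trans hm
  have hb : m0 ≤ m := ((le_max_right _ _).trans (le_max_left _ _)).trans hm
  have hc : m3 ≤ m := (le_max_right _ _).trans hm
  have hm1' : 1 ≤ m := by omega
  have hmpos : (0 : ℝ) < m := by exact_mod_cast hm1'
  have hm2 : 1 ≤ m ^ 2 := Nat.one_le_pow _ _ hm1'
  filter_upwards [hm1 m ha, sum_rule hg m 1 one_pos, rule hg hv (m ^ 2) hm2,
    eventually_gt_atTop 0] with N h1 h2 h3 h4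
  have hN : (0 : ℝ) < N := by exact_mod_cast h4
  rw [weight_id (fun k => cov x k N) (cov x 0 N) hm1']
  rw [cov_norm x m N hm1'] at h2
  have h5 : c1 * Real.log m ≤ (1 / N : ℝ) * ∑ n ∈ Icc 1 N, (∑ i ∈ range m, x (n + i)) ^ 2 := by
    rw [one_div, inv_mul_eq_div, le_div_iff₀ hN]
    exact h1
  have h6 := (abs_le.mp h2).2
  have h7 := (abs_le.mp h3).2
  have h8 := hm0 m hb
  have h9 : (m : ℝ) * (cov x 0 N + 2 * ∑ k ∈ Ico 1 (m ^ 2),
      (1 - (k : ℝ) / ((m ^ 2 : ℕ) : ℝ)) * cov x k N) ≤ 1 :=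
    (mul_le_mul_of_nonneg_left h7 hmpos.le).trans h8
  have h10 : 8 ≤ c1 * Real.log m := by
    have := hm3 m hc
    rw [div_le_iff₀ hc1] at this
    linarith
  have h11 : (m / 2 : ℝ) * ((cov x 0 N + 2 * ∑ k ∈ Ico 1 m, (1 - (k : ℝ) / m) * cov x k N) -
        (cov x 0 N + 2 * ∑ k ∈ Ico 1 (m ^ 2), (1 - (k : ℝ) / ((m ^ 2 : ℕ) : ℝ)) * cov x k N)) =
      (m * (cov x 0 N + 2 * ∑ k ∈ Ico 1 m, (1 - (k : ℝ) / m) * cov x k N) -
        m * (cov x 0 N + 2 * ∑ k ∈ Ico 1 (m ^ 2),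
          (1 - (k : ℝ) / ((m ^ 2 : ℕ) : ℝ)) * cov x k N)) / 2 := by ring
  rw [h11]
  linarith

end Pool.Agent.R846.NC
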