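import Pool.Agent.Y743.NC.Block
import Pool.Agent.R846.NC.Abs2

/-! # The sums of consecutive normalised gaps of the zeta zeros have small variance -/

set_option autoImplicit false

open Filter Topology MeasureTheory Set

namespace Pool.Agent.R846.NC

open SG (ord NZ)
open LG (dlt)
open SP (RHs)
open Pool.Agent.Y743.LR
open Pool.Agent.Y743.NC (ff ff_eq inner)

lemma dl_nonneg' : ∃ n0 : ℕ, 1 ≤ n0 ∧ ∀ n : ℕ, n0 ≤ n → 0 ≤ dl n := by
  have hpi := Real.pi_gt_three
  obtain ⟨n0, h⟩ := (Pool.Agent.Y743.LR.ord_tendsto.eventually_ge_atTop (2 * Real.pi)).exists_forall_of_atTop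
  refine ⟨max 1 n0, le_max_left _ _, fun n hn => ?_⟩
  have h1 := h n ((le_max_right _ _).trans hn)
  have h2 : 1 ≤ n := (le_max_left _ _).trans hn
  unfold dl
  apply div_nonneg _ (by positivity)
  apply mul_nonneg
  · exact sub_nonneg.2 (SG.ord_mono h2 (by omega))
  · apply Real.log_nonneg
    rw [le_div_iff₀ (by positivity)]
    linarith

lemma dl_le_dlt {n : ℕ} (hn : 1 ≤ n) : dl n ≤ dlt n := by
  have hpi := Real.pi_gt_three
  have hp : 0 < ord n := SG.ord_pos hn
  have hstep := ord_step hn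
  have hp' : 0 < ord (n + 1) := hp.trans_le hstep
  unfold dl LG.dlt
  apply div_le_div_of_nonneg_right _ (by positivity)
  have h1 : Real.log (ord n / (2 * Real.pi)) ≤ Real.log (ord n) := by
    apply Real.log_le_log (by positivity)
    exact div_le_self hp.le (by linarith)
  have h2 : Real.log (ord n) ≤ Real.log (ord (n + 1)) := Real.log_le_log hp hstep
  have h3 : (ord (n + 1) - ord n) * Real.log (ord n / (2 * Real.pi)) ≤
      (ord (n + 1) - ord n) * Real.log (ord n) := mul_le_mul_of_nonneg_left h1 (by linarith)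
  have h4 : ord (n + 1) * Real.log (ord n) ≤ ord (n + 1) * Real.log (ord (n + 1)) :=
    mul_le_mul_of_nonneg_left h2 hp'.le
  linarith

/-- the centred normalised gaps grow at most logarithmically -/
theorem logGrowth (hRH : RHs) : LogGrowth (fun n => dl n - 1) := by
  obtain ⟨C, hC, h⟩ := Pool.Agent.Y743.PR.gap_log hRH
  obtain ⟨n0, hn01, hn0⟩ := dl_nonneg'
  have hS : 0 ≤ ∑ n ∈ Finset.range n0, |dl n - 1| := Finset.sum_nonneg fun _ _ => abs_nonneg _
  refine ⟨C + 1 + ∑ n ∈ Finset.range n0, |dl n - 1|, by positivity, fun n hn => ?_⟩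
  have hl : 0 ≤ Real.log n := Real.log_natCast_nonneg n
  rcases lt_or_ge n n0 with h1 | h1
  · have h2 : |dl n - 1| ≤ ∑ n ∈ Finset.range n0, |dl n - 1| :=
      Finset.single_le_sum (f := fun n => |dl n - 1|) (fun _ _ => abs_nonneg _)
        (Finset.mem_range.mpr h1)
    nlinarith
  · have h2 := hn0 n h1
    have h3 := (dl_le_dlt hn).trans (h n hn)
    have h4 : 0 ≤ C * (1 + Real.log n) := by positivity
    rw [abs_le]
    constructor
    · nlinarith
    · nlinarith

/-- block bound -/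
theorem block (hRH : RHs) : ∃ B : ℝ, 1 ≤ B ∧ ∀ r : ℕ, 1 ≤ r → ∃ T0 : ℝ, 10 ≤ T0 ∧ ∀ T : ℝ,
    T0 ≤ T → ∀ I : Finset ℕ, (∀ n ∈ I, 1 ≤ n ∧ T + 1 ≤ ord n ∧ ord n + 1 ≤ 2 * T) →
      ∑ n ∈ I, (∑ i ∈ Finset.range r, (dl (n + i) - 1)) ^ 2 ≤
        B * (1 + Real.log r) ^ 2 * (T * Real.log T) := by
  obtain ⟨C2, hC2, hin⟩ := inner hRH
  obtain ⟨κ, D, C, hκ, hκ1, hD, hC, hg⟩ := good_ev
  obtain ⟨C', hC', hcube⟩ := gam_cube (D := D) hRH hκ hC
  refine ⟨2 * C2 + 1, by linarith, fun r hr => ?_⟩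
  have hr1 : (1 : ℝ) ≤ r := by exact_mod_cast hr
  have hlr : 0 ≤ Real.log r := Real.log_nonneg hr1
  obtain ⟨T1, hT1, h1⟩ := hin r hr
  obtain ⟨Tg, hTg, hgood⟩ := hg r
  set M : ℝ := |Real.log κ| + |Real.log D| + Real.log (2 * Real.pi) with hM
  have hpi := Real.pi_gt_three
  have hM0 : 0 ≤ M := by
    have : 0 ≤ Real.log (2 * Real.pi) := Real.log_nonneg (by linarith)
    positivity
  obtain ⟨T3, hT3⟩ := (Real.tendsto_log_atTop.eventually_ge_atTop
    (max 1 (2 * M ^ 2 * r ^ 2 * (C + C')))).exists_forall_of_atTop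
  refine ⟨max (max Tg T3) T1, hT1.trans (le_max_right _ _), fun T hT I hI => ?_⟩
  have hTTg : Tg ≤ T := ((le_max_left _ _).trans (le_max_left _ _)).trans hT
  have hTT3 : T3 ≤ T := ((le_max_right _ _).trans (le_max_left _ _)).trans hT
  have hTT1 : T1 ≤ T := (le_max_right _ _).trans hT
  have hT10 : 10 ≤ T := hT1.trans hTT1
  have hgT := hgood T hTTg
  have hL1 : 1 ≤ Real.log T := (le_max_left _ _).trans (hT3 T hTT3)
  have hL2 : 2 * M ^ 2 * r ^ 2 * (C + C') ≤ Real.log T := (le_max_right _ _).trans (hT3 T hTT3)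
  have hLpos : 0 < Real.log T := by linarith
  have hTL : 0 < T * Real.log T := by positivity
  have h2 := h1 T hTT1 I hI
  -- positions
  have hpos : ∀ n ∈ I, NZ T < n ∧ n ≤ NZ (2 * T) := by
    intro n hn
    obtain ⟨a1, a2, a3⟩ := hI n hn
    constructor
    · by_contra hcon
      push Not at hcon
      have := (SG.ord_le_iff a1 _).mpr hcon
      linarith
    · exact (SG.ord_le_iff a1 _).mp (by linarith)
  have h23 : NZ (2 * T) ≤ NZ (3 * T) := SG.NZ_mono (by linarith)
  have hcardI : (I.card : ℝ) ≤ C * (T * Real.log T) := by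
    have h1 : I ⊆ Finset.Ioc (NZ T) (NZ (2 * T)) := fun n hn => Finset.mem_Ioc.mpr (hpos n hn)
    have h2 := Finset.card_le_card h1
    rw [Nat.card_Ioc] at h2
    have h3 : I.card ≤ NZ (3 * T) := by omega
    have h4 : (I.card : ℝ) ≤ NZ (3 * T) := by exact_mod_cast h3
    have h5 := hgT.card
    have h6 : (0 : ℝ) ≤ r := by linarith
    linarith
  -- comparison of the two normalisations
  have hclose : ∀ n ∈ I, ∀ i, i < r → |dif (yv T) (n + i) - dl (n + i)| ≤
      M / Real.log T * dif (yv T) (n + i) := by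
    intro n hn i hi
    obtain ⟨a1, a2, a3⟩ := hI n hn
    have hk : κ * T < ord (n + i) := by
      have b1 : ord n ≤ ord (n + i) := SG.ord_mono a1 (Nat.le_add_right n i)
      have b2 : κ * T ≤ T := by nlinarith
      linarith
    have hD' : ord (n + i) ≤ D * T := by
      refine (SG.ord_le_iff (by omega) _).mpr ?_
      have b1 := hgT.n3
      have b2 := (hpos n hn).2
      omega
    exact dl_close hκ (by linarith) (by linarith) (by omega) hk hD'
  have hsq : ∀ n ∈ I, (∑ i ∈ Finset.range r, (dl (n + i) - 1)) ^ 2 ≤ 2 * ff T r n ^ 2 +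
      2 * (M / Real.log T) ^ 2 * r * ∑ i ∈ Finset.range r, dif (yv T) (n + i) ^ 2 := by
    intro n hn
    have e1 : ∑ i ∈ Finset.range r, (dl (n + i) - 1) = ff T r n -
        ∑ i ∈ Finset.range r, (dif (yv T) (n + i) - dl (n + i)) := by
      rw [ff_eq, Finset.sum_sub_distrib, Finset.sum_sub_distrib, Finset.sum_const,
        Finset.card_range, nsmul_eq_mul, mul_one]
      ring
    rw [e1]
    set E := ∑ i ∈ Finset.range r, (dif (yv T) (n + i) - dl (n + i)) with hE
    have h3 : E ^ 2 ≤ r * ∑ i ∈ Finset.range r, (dif (yv T) (n + i) - dl (n + i)) ^ 2 := by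
      have := sq_sum_le_card_mul_sum_sq (s := Finset.range r)
        (f := fun i => dif (yv T) (n + i) - dl (n + i))
      rwa [Finset.card_range] at this
    have h4 : ∑ i ∈ Finset.range r, (dif (yv T) (n + i) - dl (n + i)) ^ 2 ≤
        (M / Real.log T) ^ 2 * ∑ i ∈ Finset.range r, dif (yv T) (n + i) ^ 2 := by
      rw [Finset.mul_sum]
      refine Finset.sum_le_sum fun i hi => ?_
      have := hclose n hn i (Finset.mem_range.mp hi)
      rw [← sq_abs]
      calc |dif (yv T) (n + i) - dl (n + i)| ^ 2 ≤ (M / Real.log T * dif (yv T) (n + i)) ^ 2 :=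
            pow_le_pow_left₀ (abs_nonneg _) this 2
        _ = _ := by ring
    have h5 : E ^ 2 ≤ (M / Real.log T) ^ 2 * r * ∑ i ∈ Finset.range r, dif (yv T) (n + i) ^ 2 := by
      refine h3.trans ?_
      calc _ ≤ (r : ℝ) * ((M / Real.log T) ^ 2 * ∑ i ∈ Finset.range r, dif (yv T) (n + i) ^ 2) :=
            mul_le_mul_of_nonneg_left h4 (by linarith)
        _ = _ := by ring
    nlinarith [sq_nonneg (ff T r n + E)]
  have hdif : ∀ i, i < r → ∑ n ∈ I, dif (yv T) (n + i) ^ 2 ≤ (C + C') * (T * Real.log T) := by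
    intro i hi
    have h3 : ∑ n ∈ I, dif (yv T) (n + i) ^ 2 ≤ ∑ n ∈ I, (1 + dif (yv T) (n + i) ^ 3) := by
      refine Finset.sum_le_sum fun n hn => ?_
      have h0 : 0 ≤ dif (yv T) (n + i) :=
        dif_nonneg (by linarith) (by have := (hI n hn).1; omega)
      set x := dif (yv T) (n + i)
      rcases le_total x 1 with h | h
      · have h3 : 0 ≤ x ^ 3 := by positivity
        nlinarith
      · have h3 : x ^ 2 * 1 ≤ x ^ 2 * x := mul_le_mul_of_nonneg_left h (sq_nonneg _)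
        nlinarith
    refine h3.trans ?_
    rw [Finset.sum_add_distrib, Finset.sum_const, nsmul_eq_mul, mul_one]
    have h4 : ∑ n ∈ I, dif (yv T) (n + i) ^ 3 ≤ C' * (T * Real.log T) := by
      rw [Pool.Agent.Y743.NC.sum_shift I i (fun m => dif (yv T) m ^ 3)]
      refine hcube r T hgT _ fun m hm => ?_
      rw [Finset.mem_image] at hm
      obtain ⟨n, hn, rfl⟩ := hm
      have := hpos n hn
      omega
    linarith
  refine (Finset.sum_le_sum hsq).trans ?_
  rw [Finset.sum_add_distrib, ← Finset.mul_sum, ← Finset.mul_sum, Finset.sum_comm]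
  have h5 : ∑ i ∈ Finset.range r, ∑ n ∈ I, dif (yv T) (n + i) ^ 2 ≤
      r * ((C + C') * (T * Real.log T)) := by
    refine (Finset.sum_le_sum fun i hi => hdif i (Finset.mem_range.mp hi)).trans ?_
    rw [Finset.sum_const, Finset.card_range, nsmul_eq_mul]
  have h6 : 2 * (M / Real.log T) ^ 2 * r * ∑ i ∈ Finset.range r, ∑ n ∈ I, dif (yv T) (n + i) ^ 2 ≤
      T * Real.log T := by
    calc _ ≤ 2 * (M / Real.log T) ^ 2 * r * (r * ((C + C') * (T * Real.log T))) :=
          mul_le_mul_of_nonneg_left h5 (by positivity)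
      _ = (2 * M ^ 2 * r ^ 2 * (C + C')) / Real.log T ^ 2 * (T * Real.log T) := by
          field_simp
      _ ≤ 1 * (T * Real.log T) := by
          apply mul_le_mul_of_nonneg_right _ hTL.le
          rw [div_le_one (by positivity)]
          nlinarith
      _ = _ := one_mul _
  have h7 : (1 : ℝ) ≤ (1 + Real.log r) ^ 2 := one_le_pow₀ (by linarith)
  have h8 : T * Real.log T ≤ (1 + Real.log r) ^ 2 * (T * Real.log T) :=
    le_mul_of_one_le_left hTL.le h7
  calc _ ≤ 2 * (C2 * (1 + Real.log r) ^ 2 * (T * Real.log T)) + T * Real.log T := by linarith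
    _ ≤ _ := by linarith

/-- summation over the blocks -/
lemma blocks_sum (G : ℕ → ℝ) (hG : ∀ n, 0 ≤ G n) (B T0 : ℝ) (hB : 0 ≤ B) (hT0 : 10 ≤ T0)
    (h : ∀ T : ℝ, T0 ≤ T → ∀ I : Finset ℕ, (∀ n ∈ I, 1 ≤ n ∧ T + 1 ≤ ord n ∧ ord n + 1 ≤ 2 * T) →
      ∑ n ∈ I, G n ≤ B * (T * Real.log T)) :
    ∀ Y : ℝ, 1 ≤ Y → ∑ n ∈ Finset.Ioc (NZ (2 * T0)) (NZ Y), G n ≤ 2 * B * (Y * Real.log Y) := by
  set T2 : ℝ := 2 * T0 with hT2
  have hT20 : 0 < T2 := by linarith
  have key : ∀ m : ℕ, ∀ Y : ℝ, 1 ≤ Y → Y ≤ (3 / 2 : ℝ) ^ m * T2 →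
      ∑ n ∈ Finset.Ioc (NZ T2) (NZ Y), G n ≤ 2 * B * (Y * Real.log Y) := by
    have hsmall : ∀ Y : ℝ, 1 ≤ Y → Y ≤ T2 →
        ∑ n ∈ Finset.Ioc (NZ T2) (NZ Y), G n ≤ 2 * B * (Y * Real.log Y) := by
      intro Y hY1 hY
      have hemp : Finset.Ioc (NZ T2) (NZ Y) = ∅ := Finset.Ioc_eq_empty_of_le (SG.NZ_mono hY)
      rw [hemp, Finset.sum_empty]
      have := Real.log_nonneg hY1
      positivity
    intro m
    induction m with
    | zero =>
      intro Y hY1 hY
      rw [pow_zero, one_mul] at hY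
      exact hsmall Y hY1 hY
    | succ m ih =>
      intro Y hY1 hY
      rcases le_or_gt Y T2 with h0 | h0
      · exact hsmall Y hY1 h0
      · have hY20 : 20 ≤ Y := by linarith
        have h1 : (1 : ℝ) ≤ 2 / 3 * Y := by linarith
        have h2 : 2 / 3 * Y ≤ (3 / 2 : ℝ) ^ m * T2 := by
          rw [pow_succ] at hY
          linarith
        have h3 := ih (2 / 3 * Y) h1 h2
        have h4 := h (3 / 5 * Y) (by linarith) (Finset.Ioc (NZ (2 / 3 * Y)) (NZ Y)) (by
          intro n hn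
          rw [Finset.mem_Ioc] at hn
          have a1 : 1 ≤ n := by omega
          have a2 : 2 / 3 * Y < ord n := by
            by_contra hcon
            push Not at hcon
            have := (SG.ord_le_iff a1 _).mp hcon
            omega
          have a3 : ord n ≤ Y := (SG.ord_le_iff a1 _).mpr hn.2
          exact ⟨a1, by linarith, by linarith⟩)
        have hsub : Finset.Ioc (NZ T2) (NZ Y) ⊆
            Finset.Ioc (NZ T2) (NZ (2 / 3 * Y)) ∪ Finset.Ioc (NZ (2 / 3 * Y)) (NZ Y) := by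
          intro n hn
          rw [Finset.mem_union, Finset.mem_Ioc, Finset.mem_Ioc]
          rw [Finset.mem_Ioc] at hn
          omega
        have h5 : ∑ n ∈ Finset.Ioc (NZ T2) (NZ Y), G n ≤
            ∑ n ∈ Finset.Ioc (NZ T2) (NZ (2 / 3 * Y)), G n +
              ∑ n ∈ Finset.Ioc (NZ (2 / 3 * Y)) (NZ Y), G n := by
          refine (Finset.sum_le_sum_of_subset_of_nonneg hsub fun n _ _ => hG n).trans ?_
          rw [← Finset.sum_union_inter]
          exact le_add_of_nonneg_right (Finset.sum_nonneg fun n _ => hG n)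
        have hlog1 : Real.log (2 / 3 * Y) ≤ Real.log Y :=
          Real.log_le_log (by linarith) (by linarith)
        have hlog2 : Real.log (3 / 5 * Y) ≤ Real.log Y :=
          Real.log_le_log (by linarith) (by linarith)
        have hlog0 : 0 ≤ Real.log Y := Real.log_nonneg hY1
        have h6 : 2 * B * (2 / 3 * Y * Real.log (2 / 3 * Y)) ≤ 2 * B * (2 / 3 * Y * Real.log Y) := by
          gcongr
        have h7 : B * (3 / 5 * Y * Real.log (3 / 5 * Y)) ≤ B * (3 / 5 * Y * Real.log Y) := by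
          gcongr
        have h8 : 0 ≤ B * (Y * Real.log Y) := by positivity
        linarith
  intro Y hY
  have hlim : Tendsto (fun m : ℕ => (3 / 2 : ℝ) ^ m) atTop atTop :=
    tendsto_pow_atTop_atTop_of_one_lt (by norm_num)
  obtain ⟨m, hm⟩ := (tendsto_atTop.mp hlim (Y / T2)).exists
  rw [div_le_iff₀ hT20] at hm
  exact key m Y hY hm

/-- the size of the `N`-th ordinate -/
lemma ord_log_le : ∃ K : ℝ, 1 ≤ K ∧ ∀ᶠ N : ℕ in atTop, 1 ≤ ord N ∧
    ord N * Real.log (ord N) ≤ K * N := by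
  obtain ⟨c1, T2, hc1, hT2, hlow⟩ := LG.GapAux.NZ_low
  refine ⟨3 * (2 / c1) + 1, by linarith [show 0 < 3 * (2 / c1) by positivity], ?_⟩
  filter_upwards [Pool.Agent.Y743.LR.ord_tendsto.eventually_ge_atTop (3 * T2 + 3), eventually_ge_atTop 1]
    with N h1 hN
  set Y := ord N with hYdef
  have hYpos : 0 < Y := by linarith
  refine ⟨by linarith, ?_⟩
  have h3 := hlow (Y / 3) (by linarith)
  have h4 : NZ (2 * (Y / 3)) < N := by
    by_contra hcon
    push Not at hcon
    have h5 : ord N ≤ 2 * (Y / 3) := (SG.ord_le_iff hN _).mpr hcon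
    rw [← hYdef] at h5
    linarith
  have h5 : (NZ (2 * (Y / 3)) : ℝ) ≤ N := by exact_mod_cast h4.le
  have h6 : Real.log Y ≤ 2 * Real.log (Y / 3) := by
    have h7 : Y ≤ (Y / 3) ^ 2 := by nlinarith
    have h8 := Real.log_le_log hYpos h7
    rw [Real.log_pow] at h8
    push_cast at h8
    exact h8
  have h10 : c1 * (Y / 3 * Real.log (Y / 3)) ≤ N := h3.trans h5
  have h11 : Y * Real.log Y ≤ Y * (2 * Real.log (Y / 3)) := mul_le_mul_of_nonneg_left h6 hYpos.le
  have h12 : Y * (2 * Real.log (Y / 3)) = 3 * (2 / c1) * (c1 * (Y / 3 * Real.log (Y / 3))) := by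
    field_simp
  rw [h12] at h11
  have h13 := h11.trans (mul_le_mul_of_nonneg_left h10 (by positivity : 0 ≤ 3 * (2 / c1)))
  have h14 : (0 : ℝ) ≤ N := Nat.cast_nonneg N
  linarith

/-- **the sums of `m` consecutive centred normalised gaps have mean square at most
`V (1 + log m)²`** -/
theorem smallVar (hRH : RHs) : ∃ V : ℝ, SmallVar (fun n => dl n - 1) V := by
  obtain ⟨B, hB, hb⟩ := block hRH
  obtain ⟨K, hK, hord⟩ := ord_log_le
  refine ⟨2 * B * K + 1, fun m hm => ?_⟩
  obtain ⟨T0, hT0, h⟩ := hb m hm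
  set G : ℕ → ℝ := fun n => (∑ i ∈ Finset.range m, (dl (n + i) - 1)) ^ 2 with hGdef
  have hG : ∀ n, 0 ≤ G n := fun n => sq_nonneg _
  set L : ℝ := (1 + Real.log m) ^ 2 with hL
  have hlm : 0 ≤ Real.log m := Real.log_natCast_nonneg m
  have hL1 : 1 ≤ L := one_le_pow₀ (by linarith)
  have hsum := blocks_sum G hG (B * L) T0 (by positivity) hT0 h
  set E : ℝ := ∑ n ∈ Finset.Icc 1 (NZ (2 * T0)), G n with hE
  have hEN : ∀ᶠ N : ℕ in atTop, E ≤ (N : ℝ) :=
    tendsto_natCast_atTop_atTop.eventually_ge_atTop E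
  filter_upwards [hord, hEN, eventually_ge_atTop 1] with N h1 h2 hN
  show ∑ n ∈ Finset.Icc 1 N, G n ≤ (2 * B * K + 1) * L * N
  have h3 := hsum (ord N) h1.1
  have h4 : N ≤ NZ (ord N) := (SG.ord_le_iff hN _).mp le_rfl
  have hsub : Finset.Icc 1 N ⊆ Finset.Icc 1 (NZ (2 * T0)) ∪
      Finset.Ioc (NZ (2 * T0)) (NZ (ord N)) := by
    intro n hn
    rw [Finset.mem_union, Finset.mem_Icc, Finset.mem_Ioc]
    rw [Finset.mem_Icc] at hn
    omega
  have h5 : ∑ n ∈ Finset.Icc 1 N, G n ≤ E + ∑ n ∈ Finset.Ioc (NZ (2 * T0)) (NZ (ord N)), G n := by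
    refine (Finset.sum_le_sum_of_subset_of_nonneg hsub fun n _ _ => hG n).trans ?_
    rw [← Finset.sum_union_inter]
    exact le_add_of_nonneg_right (Finset.sum_nonneg fun n _ => hG n)
  have hN0 : (0 : ℝ) ≤ N := Nat.cast_nonneg N
  have h6 : 2 * (B * L) * (ord N * Real.log (ord N)) ≤ 2 * (B * L) * (K * N) :=
    mul_le_mul_of_nonneg_left h1.2 (by positivity)
  have h7 : (N : ℝ) ≤ L * N := le_mul_of_one_le_left hN0 hL1
  calc _ ≤ E + ∑ n ∈ Finset.Ioc (NZ (2 * T0)) (NZ (ord N)), G n := h5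
    _ ≤ L * N + 2 * (B * L) * (K * N) := by linarith
    _ = _ := by ring

end Pool.Agent.R846.NC
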