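import Pool.Agent.Y743.CL.Fa
import Pool.Agent.R846.NC.Zeta

/-! # The variance of the sums of consecutive normalised gaps tends to infinity -/

set_option autoImplicit false

open Filter Topology MeasureTheory Set

namespace Pool.Agent.R846.NC

open SG (ord NZ)
open LG (dlt)
open Pool.Agent.Y743.LR
open Pool.Agent.Y743.CL (Ev bU grow4 lm Ph gs gs_compl log_nat)

lemma Ph_one : Ph 1 < 1 := by
  have h1 := gs_compl 1
  have h2 : 0 < gs.real (Ioi 1) := by
    rw [measureReal_def, ENNReal.toReal_pos_iff]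
    refine ⟨?_, measure_lt_top _ _⟩
    have h3 : ¬ (gs (Ioi (1 : ℝ)) = 0) := by
      intro h
      have h4 : (volume : Measure ℝ) ≪ gs := by
        unfold gs
        exact ProbabilityTheory.gaussianReal_absolutelyContinuous' 0 one_ne_zero
      have h5 := h4 h
      rw [Real.volume_Ioi] at h5
      exact ENNReal.top_ne_zero h5
    exact pos_iff_ne_zero.mpr h3
  linarith

lemma total_low : ∃ C T0 : ℝ, 0 < C ∧ 10 ≤ T0 ∧ ∀ T : ℝ, T0 ≤ T →
    T * Real.log T / (2 * Real.pi) - C * T ≤ (NZ (2 * T) : ℝ) - NZ T := by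
  obtain ⟨C, T0, hC, hT0, h⟩ := H370.nn_asymp H370.good_zeta
  refine ⟨C, T0, by linarith, hT0, fun T hT => ?_⟩
  have h1 := (abs_le.mp (h T hT T (2 * T) le_rfl (by linarith) (by linarith) le_rfl)).1
  have hfin : (H370.zset riemannZeta T (2 * T)).Finite :=
    H370.zset_finite H370.good_zeta T (2 * T) (by linarith)
  have h3 : NZ T + H370.NN riemannZeta T (2 * T) ≤ NZ (2 * T) := by
    have h4 := SG.NZ_add_le T (2 * T) (by linarith) hfin.toFinset (by
      intro s hs
      rw [Set.Finite.mem_toFinset] at hs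
      obtain ⟨s1, s2, s3, s4, s5⟩ := hs
      exact ⟨⟨s5, s1, s2, by linarith, s4⟩, s3⟩)
    have h5 : H370.NN riemannZeta T (2 * T) = ∑ s ∈ hfin.toFinset, SG.zmult s := by
      unfold H370.NN
      rw [finsum_mem_eq_finite_toFinset_sum _ hfin]
      rfl
    rw [h5]
    exact h4
  have h3r : (NZ T : ℝ) + (H370.NN riemannZeta T (2 * T) : ℝ) ≤ NZ (2 * T) := by
    exact_mod_cast h3
  have e : (2 * T - T) * Real.log T / (2 * Real.pi) = T * Real.log T / (2 * Real.pi) := by ring
  linarith

/-- the unfolded ordinate -/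
noncomputable def Un (n : ℕ) : ℝ := ord n * Real.log (ord n) / (2 * Real.pi)

lemma step_close {n : ℕ} (hn : 1 ≤ n) (h1 : 1 ≤ ord n) (h4 : ord (n + 1) ≤ 4 * ord n) :
    (Un (n + 1) - Un n) - dl n ≤ ord (n + 1) - ord n := by
  have hpi := Real.pi_gt_three
  have hpi4 := Real.pi_lt_four
  have hstep := ord_step hn
  set u := ord n
  set v := ord (n + 1)
  have hu : 0 < u := by linarith
  have hv : 0 < v := by linarith
  have e1 : Real.log v - Real.log u ≤ v / u - 1 := by
    rw [← Real.log_div hv.ne' hu.ne']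
    exact Real.log_le_sub_one_of_pos (div_pos hv hu)
  have e2 : v * (Real.log v - Real.log u) ≤ (v - u) * 4 := by
    have h5 : v * (Real.log v - Real.log u) ≤ v * (v / u - 1) := mul_le_mul_of_nonneg_left e1 hv.le
    have h6 : v * (v / u - 1) = (v - u) * (v / u) := by field_simp
    have h7 : v / u ≤ 4 := by rw [div_le_iff₀ hu]; exact h4
    have h8 : (v - u) * (v / u) ≤ (v - u) * 4 := mul_le_mul_of_nonneg_left h7 (by linarith)
    linarith
  have e3 : Real.log (2 * Real.pi) ≤ 2 := by
    rw [Real.log_le_iff_le_exp (by positivity)]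
    have h5 : (2.7 : ℝ) < Real.exp 1 := by linarith [Real.exp_one_gt_d9]
    have h6 : Real.exp 2 = Real.exp 1 * Real.exp 1 := by rw [← Real.exp_add]; norm_num
    have h7 := Real.pi_lt_d2
    rw [h6]
    nlinarith
  have e4 : (v - u) * Real.log (2 * Real.pi) ≤ (v - u) * 2 :=
    mul_le_mul_of_nonneg_left e3 (by linarith)
  have e5 : (Un (n + 1) - Un n) - dl n = (v * (Real.log v - Real.log u) +
      (v - u) * Real.log (2 * Real.pi)) / (2 * Real.pi) := by
    unfold Un dl
    show v * Real.log v / (2 * Real.pi) - u * Real.log u / (2 * Real.pi) -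
      (v - u) * Real.log (u / (2 * Real.pi)) / (2 * Real.pi) = _
    rw [Real.log_div hu.ne' (by positivity)]
    ring
  rw [e5, div_le_iff₀ (by positivity)]
  have : (v - u) * 6 ≤ (v - u) * (2 * Real.pi) := mul_le_mul_of_nonneg_left (by linarith) (by linarith)
  linarith

lemma sum_close {n r : ℕ} (hn : 1 ≤ n) (h1 : 1 ≤ ord n) (h4 : ord (n + r) ≤ 4 * ord n) :
    (Un (n + r) - Un n) - (ord (n + r) - ord n) ≤ ∑ i ∈ Finset.range r, dl (n + i) := by
  induction r with
  | zero => simp
  | succ r ih =>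
    have hs := ord_step (n := n + r) (by omega)
    have hm : ord n ≤ ord (n + r) := SG.ord_mono hn (by omega)
    have e : n + (r + 1) = n + r + 1 := by ring
    rw [e] at h4 ⊢
    have h5 := ih (by linarith)
    have h6 := step_close (n := n + r) (by omega) (by linarith) (by linarith)
    rw [Finset.sum_range_succ]
    linarith

/-- the total length of the `r`-spans of a block -/
lemma span_sum {T : ℝ} (hT : 10 ≤ T) (r : ℕ) (hr : NZ (2 * T) + r ≤ NZ (4 * T)) :
    ∑ n ∈ Finset.Ioc (NZ T) (NZ (2 * T)), (ord (n + r) - ord n) ≤ r * (4 * T) := by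
  have key : ∀ i : ℕ, i < r → ∑ n ∈ Finset.Ioc (NZ T) (NZ (2 * T)), (ord (n + i + 1) - ord (n + i)) ≤
      4 * T := by
    intro i hi
    have htel : ∀ a b : ℕ, a ≤ b → ∑ n ∈ Finset.Ioc a b, (ord (n + i + 1) - ord (n + i)) =
        ord (b + i + 1) - ord (a + i + 1) := by
      intro a b hab
      induction b, hab using Nat.le_induction with
      | base => simp
      | succ b hb ih =>
        rw [Finset.sum_Ioc_succ_top (by omega), ih]
        have : b + 1 + i = b + i + 1 := by ring
        rw [this]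
        ring
    have hm : NZ T ≤ NZ (2 * T) := SG.NZ_mono (by linarith)
    rw [htel _ _ hm]
    have h1 : ord (NZ (2 * T) + i + 1) ≤ 4 * T := (SG.ord_le_iff (by omega) _).mpr (by omega)
    have h2 : 0 < ord (NZ T + i + 1) := SG.ord_pos (by omega)
    linarith
  have e : ∀ n, ord (n + r) - ord n = ∑ i ∈ Finset.range r, (ord (n + i + 1) - ord (n + i)) := by
    intro n
    have := Finset.sum_range_sub (fun i => ord (n + i)) r
    simp only [add_zero] at this
    rw [← this]
    rfl
  simp_rw [e]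
  rw [Finset.sum_comm]
  refine (Finset.sum_le_sum fun i hi => key i (Finset.mem_range.mp hi)).trans ?_
  rw [Finset.sum_const, Finset.card_range, nsmul_eq_mul]

/-- **lower bound for the variance** -/
theorem var_low : ∃ c1 : ℝ, 0 < c1 ∧ ∃ m1 : ℕ, ∀ m : ℕ, m1 ≤ m → ∀ᶠ N : ℕ in atTop,
    c1 * Real.log m * N ≤ ∑ n ∈ Finset.Icc 1 N, (∑ i ∈ Finset.range m, (dl (n + i) - 1)) ^ 2 := by
  have hpi := Real.pi_gt_three
  have hpi4 := Real.pi_lt_four
  set p : ℝ := 1 - Ph 1 with hp
  have hp0 : 0 < p := by rw [hp]; linarith [Ph_one]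
  obtain ⟨κ, D, C, hκ, hκ1, hD, hC, hg⟩ := good_ev
  obtain ⟨A0, hA0, hgrow⟩ := grow4
  obtain ⟨C1, T1, hC1, hT1, htot⟩ := total_low
  obtain ⟨r1, hr1⟩ := (bU 1 (p / 4) (by positivity)).exists_forall_of_atTop
  obtain ⟨r2, hr2⟩ := (log_nat.eventually_ge_atTop (64 : ℝ)).exists_forall_of_atTop
  -- the constant
  set q : ℝ := p / 4 / (2 * Real.pi) with hq
  have hq0 : 0 < q := by rw [hq]; positivity
  refine ⟨q / C / (4 * Real.pi ^ 2), by positivity, max r1 r2, fun r hr => ?_⟩
  have hra := hr1 r ((le_max_left _ _).trans hr)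
  have hrb := hr2 r ((le_max_right _ _).trans hr)
  obtain ⟨Tg, hTg, hgood⟩ := hg r
  obtain ⟨T2, hT2⟩ := (Real.tendsto_log_atTop.eventually_ge_atTop
    (max (r * Real.log r) ((C1 + 4 * r) * (2 * Real.pi) * 4 / p))).exists_forall_of_atTop
  have hlim : Tendsto (fun N : ℕ => ord N / 3) atTop atTop :=
    (Pool.Agent.Y743.LR.ord_tendsto).atTop_div_const (by norm_num)
  filter_upwards [hlim.eventually_ge_atTop (max (max Tg T1) (max (max A0 T2) r)),
    eventually_ge_atTop 1] with N hN hN1
  obtain ⟨T, hT⟩ : ∃ T : ℝ, T = ord N / 3 := ⟨_, rfl⟩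
  rw [← hT] at hN
  have hTTg : Tg ≤ T := ((le_max_left _ _).trans (le_max_left _ _)).trans hN
  have hTT1 : T1 ≤ T := ((le_max_right _ _).trans (le_max_left _ _)).trans hN
  have hTA0 : A0 ≤ T := (((le_max_left _ _).trans (le_max_left _ _)).trans (le_max_right _ _)).trans hN
  have hTT2 : T2 ≤ T :=
    (((le_max_right _ _).trans (le_max_left _ _)).trans (le_max_right _ _)).trans hN
  have hTr : (r : ℝ) ≤ T := ((le_max_right _ _).trans (le_max_right _ _)).trans hN
  have hT10 : 10 ≤ T := hT1.trans hTT1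
  have hgT := hgood T hTTg
  have hgw := hgrow T hTA0
  have hL2 := hT2 T hTT2
  have hLr : r * Real.log r ≤ Real.log T := (le_max_left _ _).trans hL2
  have hLp : (C1 + 4 * r) * (2 * Real.pi) * 4 / p ≤ Real.log T := (le_max_right _ _).trans hL2
  have hL0 : 0 < Real.log T := by linarith [hgT.lgT]
  have hTL : 0 < T * Real.log T := by positivity
  have hgr : NZ (2 * T) + r ≤ NZ (4 * T) := by
    have : (NZ (2 * T) : ℝ) + r ≤ NZ (4 * T) := by linarith
    exact_mod_cast this
  set blk := Finset.Ioc (NZ T) (NZ (2 * T)) with hblk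
  have hmono : NZ T ≤ NZ (2 * T) := SG.NZ_mono (by linarith)
  have hcard : (blk.card : ℝ) = (NZ (2 * T) : ℝ) - NZ T := by
    rw [hblk, Nat.card_Ioc, Nat.cast_sub hmono]
  have htotT := htot T hTT1
  -- the bad sets
  have hb1 := hra T (by linarith) (by linarith)
  set E1 := blk.filter (fun n => Ev 1 r n) with hE1
  set E2 := blk.filter (fun n => 1 ≤ ord (n + r) - ord n) with hE2
  have hb2 : (E2.card : ℝ) ≤ r * (4 * T) := by
    refine le_trans ?_ (span_sum hT10 r hgr)
    have h0 : ∀ n ∈ blk, 0 ≤ ord (n + r) - ord n := fun n hn => by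
      rw [hblk, Finset.mem_Ioc] at hn
      exact sub_nonneg.mpr (SG.ord_mono (by omega) (by omega))
    have h1 : (E2.card : ℝ) ≤ ∑ n ∈ E2, (ord (n + r) - ord n) := by
      have : (E2.card : ℝ) = ∑ n ∈ E2, (1 : ℝ) := by simp
      rw [this]
      exact Finset.sum_le_sum fun n hn => (Finset.mem_filter.mp hn).2
    exact h1.trans (Finset.sum_le_sum_of_subset_of_nonneg (Finset.filter_subset _ _)
      fun n hn _ => h0 n hn)
  set Gd := (blk \ E1) \ E2 with hGd
  have hGcard : q * (T * Real.log T) ≤ Gd.card := by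
    have h1 : blk.card ≤ Gd.card + E2.card + E1.card := by
      have a1 : (blk \ E1).card ≤ Gd.card + E2.card := by
        have := Finset.card_le_card_sdiff_add_card (s := blk \ E1) (t := E2)
        omega
      have a2 := Finset.card_le_card_sdiff_add_card (s := blk) (t := E1)
      omega
    have h2 : (blk.card : ℝ) ≤ Gd.card + E2.card + E1.card := by exact_mod_cast h1
    rw [hcard] at h2
    have h3 : (C1 + 4 * r) * T ≤ p / 4 / (2 * Real.pi) * (T * Real.log T) := by
      rw [div_le_iff₀ hp0] at hLp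
      have h4 : (C1 + 4 * r) ≤ p / 4 / (2 * Real.pi) * Real.log T := by
        rw [div_div, div_mul_eq_mul_div, le_div_iff₀ (by positivity)]
        linarith
      calc (C1 + 4 * r) * T ≤ p / 4 / (2 * Real.pi) * Real.log T * T :=
            mul_le_mul_of_nonneg_right h4 (by linarith)
        _ = _ := by ring
    have h4 : T * Real.log T / (2 * Real.pi) * (Ph 1 + p / 4) =
        T * Real.log T / (2 * Real.pi) - 3 * (p / 4 / (2 * Real.pi) * (T * Real.log T)) := by
      have : Ph 1 = 1 - p := by rw [hp]; ring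
      rw [this]
      ring
    rw [h4] at hb1
    rw [hq]
    have h5 : (C1 + 4 * r) * T = C1 * T + r * (4 * T) := by ring
    rw [h5] at h3
    have h6 : 0 ≤ p / 4 / (2 * Real.pi) * (T * Real.log T) := by positivity
    linarith
  -- large deviations of the good terms
  have hdev : ∀ n ∈ Gd, Real.log r / (4 * Real.pi ^ 2) ≤
      (∑ i ∈ Finset.range r, (dl (n + i) - 1)) ^ 2 := by
    intro n hn
    rw [hGd, Finset.mem_sdiff, Finset.mem_sdiff] at hn
    obtain ⟨⟨hn1, hn2⟩, hn3⟩ := hn
    have hnE : ¬ Ev 1 r n := fun h => hn2 (Finset.mem_filter.mpr ⟨hn1, h⟩)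
    have hns : ord (n + r) - ord n < 1 := by
      by_contra hcon
      push Not at hcon
      exact hn3 (Finset.mem_filter.mpr ⟨hn1, hcon⟩)
    rw [hblk, Finset.mem_Ioc] at hn1
    have hn0 : 1 ≤ n := by omega
    have hTn : T < ord n := by
      by_contra hcon
      push Not at hcon
      have := (SG.ord_le_iff hn0 _).mp hcon
      omega
    unfold Ev at hnE
    push Not at hnE
    have h1 := sum_close (n := n) (r := r) hn0 (by linarith) (by linarith)
    unfold Un at h1
    have h2 : 1 * lm r - 1 ≤ ∑ i ∈ Finset.range r, (dl (n + i) - 1) := by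
      rw [Finset.sum_sub_distrib, Finset.sum_const, Finset.card_range, nsmul_eq_mul, mul_one]
      linarith
    have hs8 : 8 ≤ Real.sqrt (Real.log r) := by
      rw [show (8 : ℝ) = Real.sqrt 64 by
        rw [show (64 : ℝ) = 8 ^ 2 by norm_num, Real.sqrt_sq (by norm_num)]]
      exact Real.sqrt_le_sqrt hrb
    have h3 : 2 ≤ lm r := by
      unfold lm
      rw [le_div_iff₀ (by positivity)]
      linarith
    have h4 : lm r / 2 ≤ ∑ i ∈ Finset.range r, (dl (n + i) - 1) := by linarith
    have h5 : (lm r / 2) ^ 2 ≤ (∑ i ∈ Finset.range r, (dl (n + i) - 1)) ^ 2 :=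
      pow_le_pow_left₀ (by linarith) h4 2
    refine le_trans (le_of_eq ?_) h5
    unfold lm
    rw [div_pow, div_pow, Real.sq_sqrt (by linarith)]
    ring
  -- the block lies in the range
  have hGsub : Gd ⊆ Finset.Icc 1 N := by
    intro n hn
    rw [hGd, Finset.mem_sdiff, Finset.mem_sdiff] at hn
    have hn1 := hn.1.1
    rw [hblk, Finset.mem_Ioc] at hn1
    rw [Finset.mem_Icc]
    refine ⟨by omega, ?_⟩
    have h1 : NZ (2 * T) < N := by
      by_contra hcon
      push Not at hcon
      have := (SG.ord_le_iff hN1 _).mpr hcon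
      rw [hT] at this hT10
      linarith
    omega
  have hNC : (N : ℝ) ≤ C * (T * Real.log T) := by
    have h1 : N ≤ NZ (3 * T) := by
      refine (SG.ord_le_iff hN1 _).mp ?_
      rw [hT]
      linarith
    have h2 : (N : ℝ) ≤ NZ (3 * T) := by exact_mod_cast h1
    have h3 := hgT.card
    have h4 : (0 : ℝ) ≤ r := Nat.cast_nonneg r
    linarith
  have hlr : 0 ≤ Real.log r := by linarith
  calc q / C / (4 * Real.pi ^ 2) * Real.log r * N ≤
      q / C / (4 * Real.pi ^ 2) * Real.log r * (C * (T * Real.log T)) :=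
        mul_le_mul_of_nonneg_left hNC (by positivity)
    _ = q * (T * Real.log T) * (Real.log r / (4 * Real.pi ^ 2)) := by field_simp
    _ ≤ Gd.card * (Real.log r / (4 * Real.pi ^ 2)) :=
        mul_le_mul_of_nonneg_right hGcard (by positivity)
    _ = ∑ _n ∈ Gd, Real.log r / (4 * Real.pi ^ 2) := by rw [Finset.sum_const, nsmul_eq_mul]
    _ ≤ ∑ n ∈ Gd, (∑ i ∈ Finset.range r, (dl (n + i) - 1)) ^ 2 := Finset.sum_le_sum hdev
    _ ≤ _ := Finset.sum_le_sum_of_subset_of_nonneg hGsub fun n _ _ => sq_nonneg _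

end Pool.Agent.R846.NC
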